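import Pool.Agent.MP_88847a_mp.H86.Defs

/-!
The metric in the new variables, and polynomial forms for a general gauge factor.
-/

open Filter Topology

noncomputable section

namespace Pool.Agent.MP_88847a_mp.H41

open Pool.Agent.MP_88847a_mp.H86

/-- The determinant of the matrix `g^{kl}` of second-order coefficients of `-H_N` written in the
variables `u`. -/
def metricDet (L : PeriodPair) {N : ℕ} (y : Fin N → ℂ) : ℂ :=
  (Matrix.of fun k l : Fin N => ∑ i, ∑ j,
    (if i = j then (N : ℂ) / (N + 1) else -(1 / ((N : ℂ) + 1))) *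
      pd i (fun x => uMap L x k) y * pd j (fun x => uMap L x l) y).det

/-- The operator `D^{-γ} H_N D^{γ}`, written in the variables `u`, has polynomial coefficients:
the identity holds at each regular point, for each local branch `ℓ` of `log D` and each
function `f` of `u` holomorphic near `u(y)`. -/
def PolyForm (L : PeriodPair) (N : ℕ) (β : ℂ) (D : (Fin N → ℂ) → ℂ) (γ : ℂ) : Prop :=
  ∃ (a : Fin N → Fin N → MvPolynomial (Fin N) ℂ) (b : Fin N → MvPolynomial (Fin N) ℂ)
    (c : MvPolynomial (Fin N) ℂ),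
    ∀ y : Fin N → ℂ, Regular L y →
      ∀ ℓ : (Fin N → ℂ) → ℂ, AnalyticAt ℂ ℓ y → (∀ᶠ x in 𝓝 y, Complex.exp (ℓ x) = D x) →
        ∀ f : (Fin N → ℂ) → ℂ, AnalyticAt ℂ f (uMap L y) →
          Complex.exp (-(γ * ℓ y)) * ham L β (fun x => Complex.exp (γ * ℓ x) * f (uMap L x)) y
            = ∑ k, ∑ l, MvPolynomial.eval (uMap L y) (a k l) * pd k (pd l f) (uMap L y)
              + ∑ k, MvPolynomial.eval (uMap L y) (b k) * pd k f (uMap L y)
              + MvPolynomial.eval (uMap L y) c * f (uMap L y)

end Pool.Agent.MP_88847a_mp.H41
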