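import Pool.Agent.MP_88847a_mp.H86.NonPoly
import Pool.Agent.MP_88847a_mp.H41.Defs

/-!
The determinant of the metric is a constant times the square of the Jacobian.
-/

open Filter Topology Complex

namespace Pool.Agent.MP_88847a_mp.H41

open Pool.Agent.MP_88847a_mp.H86

variable {L : PeriodPair} {N : ℕ}

theorem metricDet_eq (y : Fin N → ℂ) : metricDet L y = 1 / ((N : ℂ) + 1) * jac L y ^ 2 := by
  have hN : (N : ℂ) + 1 ≠ 0 := Nat.cast_add_one_ne_zero N
  let G : Matrix (Fin N) (Fin N) ℂ := 
    1 + Matrix.replicateCol Unit (fun _ : Fin N => -(1 / ((N : ℂ) + 1))) *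
      Matrix.replicateRow Unit fun _ : Fin N => (1 : ℂ)
  have hG : G.det = 1 / ((N : ℂ) + 1) := by
    rw [Matrix.det_one_add_replicateCol_mul_replicateRow]
    simp only [dotProduct, one_mul, Finset.sum_const, Finset.card_univ, Fintype.card_fin,
      nsmul_eq_mul]
    field_simp
    ring
  have e : ∀ i j, G i j = if i = j then (N : ℂ) / (N + 1) else -(1 / ((N : ℂ) + 1)) :=
    fun i j => by
    simp only [G, Matrix.add_apply, Matrix.one_apply, Matrix.mul_apply, Matrix.replicateCol_apply,
      Matrix.replicateRow_apply, mul_one, Finset.sum_const, Finset.card_univ, Fintype.card_unit,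
      one_smul]
    split_ifs
    · field_simp
      ring
    · exact zero_add _
  have : metricDet L y = (jmat L y * G * (jmat L y).transpose).det := by
    rw [metricDet]
    congr 1
    ext k l
    simp only [Matrix.of_apply, Matrix.mul_apply, Matrix.transpose_apply, Finset.sum_mul, e, jmat]
    rw [Finset.sum_comm]
    exact Finset.sum_congr rfl fun i _ => Finset.sum_congr rfl fun j _ => by ring
  rw [this, Matrix.det_mul, Matrix.det_mul, Matrix.det_transpose, hG]
  change jac L y * _ * jac L y = _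
  ring

theorem pd_const_mul (c : ℂ) (i : Fin N) (F : (Fin N → ℂ) → ℂ) :
    pd i (fun x => c * F x) = fun y => c * pd i F y := by
  funext y
  have := fderiv_const_smul_field (𝕜 := ℂ) (f := F) c
  change fderiv ℂ (c • F) y _ = _
  rw [this]
  rfl

theorem ham_const_mul (β c : ℂ) (F : (Fin N → ℂ) → ℂ) (y : Fin N → ℂ) :
    ham L β (fun x => c * F x) y = c * ham L β F y := by
  simp only [ham, pd_const_mul, ← Finset.mul_sum]
  ring

theorem gauge_shift (β γ c : ℂ) (ℓ F : (Fin N → ℂ) → ℂ) (y : Fin N → ℂ) :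
    exp (-(γ * (2 * ℓ y + c))) * ham L β (fun x => exp (γ * (2 * ℓ x + c)) * F x) y =
      exp (-(2 * γ * ℓ y)) * ham L β (fun x => exp (2 * γ * ℓ x) * F x) y := by
  have : (fun x => exp (γ * (2 * ℓ x + c)) * F x) =
      fun x => exp (γ * c) * (exp (2 * γ * ℓ x) * F x) := by
    funext x
    rw [← mul_assoc, ← exp_add]
    congr 2
    ring
  rw [this, ham_const_mul, ← mul_assoc, ← exp_add]
  congr 2
  ring

theorem polyForm_metric (hΔ : L.g₂ ^ 3 - 27 * L.g₃ ^ 2 ≠ 0) (β γ : ℂ) :
    PolyForm L N β (metricDet L) γ ↔ HasPolyForm L N β (2 * γ) := by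
  have hN : 1 / ((N : ℂ) + 1) ≠ 0 := one_div_ne_zero (Nat.cast_add_one_ne_zero N)
  refine exists₃_congr fun a b c => forall₂_congr fun y hy => ⟨fun h ℓ h1 h2 f hf => ?_,
    fun h ℓ h1 h2 f hf => ?_⟩
  · rw [← gauge_shift β γ (log (1 / ((N : ℂ) + 1)))]
    refine h (fun x => 2 * ℓ x + log (1 / ((N : ℂ) + 1))) (by fun_prop) ?_ f hf
    filter_upwards [h2] with x hx
    rw [exp_add, exp_log hN, metricDet_eq, ← hx, two_mul, exp_add]
    ring
  · have key : ∀ d : ℂ, exp d = 1 / ((N : ℂ) + 1) → exp ((ℓ y - d) / 2) = jac L y →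
        exp (-(γ * ℓ y)) * ham L β (fun x => exp (γ * ℓ x) * f (uMap L x)) y =
          ∑ k, ∑ l, MvPolynomial.eval (uMap L y) (a k l) * pd k (pd l f) (uMap L y)
            + ∑ k, MvPolynomial.eval (uMap L y) (b k) * pd k f (uMap L y)
            + MvPolynomial.eval (uMap L y) c * f (uMap L y) := fun d hd he => by
      have ha : AnalyticAt ℂ (fun x => (ℓ x - d) / 2) y := by fun_prop
      have := gauge_shift (L := L) β γ d (fun x => (ℓ x - d) / 2) (fun x => f (uMap L x)) y
      simp only [show ∀ s : ℂ, 2 * ((s - d) / 2) + d = s from fun s => by ring] at this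
      rw [this]
      refine h (fun x => (ℓ x - d) / 2) ha ?_ f hf
      have hc : ContinuousAt (fun x => exp ((ℓ x - d) / 2) + jac L x) y :=
        ha.continuousAt.cexp.add (analyticAt_jac hy.reg0).continuousAt
      filter_upwards [h2, hc.eventually_ne (y := 0) (by
        rw [he, ← two_mul]
        exact mul_ne_zero two_ne_zero (jac_ne_zero hΔ hy))] with x hx h0
      refine sub_eq_zero.1 (mul_left_cancel₀ h0 (mul_left_cancel₀ hN ?_))
      have : exp d * (exp ((ℓ x - d) / 2) * exp ((ℓ x - d) / 2)) = exp (ℓ x) := by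
        rw [← exp_add, ← exp_add]
        congr 1
        ring
      rw [hx, metricDet_eq, hd] at this
      linear_combination this
    set d := log (1 / ((N : ℂ) + 1))
    have hd : exp d = 1 / ((N : ℂ) + 1) := exp_log hN
    have h3 : exp d * (exp ((ℓ y - d) / 2) * exp ((ℓ y - d) / 2)) = exp (ℓ y) := by
      rw [← exp_add, ← exp_add]
      congr 1
      ring
    rw [h2.self_of_nhds, metricDet_eq, hd, sq] at h3
    rcases mul_self_eq_mul_self_iff.1 (mul_left_cancel₀ hN h3) with e | e
    · exact key d hd e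
    · refine key (d + 2 * Real.pi * I) (by rw [exp_add, exp_two_pi_mul_I, mul_one, hd]) ?_
      rw [show (ℓ y - (d + 2 * Real.pi * I)) / 2 = (ℓ y - d) / 2 - Real.pi * I by ring, exp_sub,
        exp_pi_mul_I, e]
      ring

end Pool.Agent.MP_88847a_mp.H41
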