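import Mathlib

/-!
Every pair of invariants with nonzero discriminant comes from a period lattice.
-/

namespace Pool.Agent.MP_88847a_mp.H41

open UpperHalfPlane hiding I
open Complex Filter Topology ModularForm MatrixGroups
open scoped Real

/-- The lattice spanned by `c τ` and `c`. -/
noncomputable def Lt (τ : ℍ) (c : ℂ) (hc : c ≠ 0) : PeriodPair := ⟨c * τ, c, by
  rw [LinearIndependent.pair_iff]
  intro s t h
  have h2 : (s : ℂ) * τ + t = 0 := mul_left_cancel₀ hc (by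
    simp only [real_smul] at h
    linear_combination h)
  have h1 := congrArg Complex.im h2
  have h0 : s = 0 := by simpa [τ.im_pos.ne'] using h1
  exact ⟨h0, by simpa [h0] using h2⟩⟩

lemma G_Lt (τ : ℍ) (c : ℂ) (hc : c ≠ 0) {k : ℕ} (hk : 3 ≤ k) :
    (Lt τ c hc).G k = (c ^ k)⁻¹ * (2 * riemannZeta k * E hk τ) := by
  have h := tsum_eisSummand_eq_riemannZeta_mul_eisensteinSeries hk τ
  rw [← (finTwoArrowEquiv ℤ).symm.tsum_eq] at h
  rw [PeriodPair.G, ← (Lt τ c hc).latticeEquivProd.symm.toEquiv.tsum_eq,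
    show E hk τ = (1 / 2 : ℂ) • eisensteinSeries (N := 1) 0 k τ from rfl, smul_eq_mul,
    show ∀ x y : ℂ, 2 * x * (1 / 2 * y) = x * y from fun x y => by ring, ← h, ← tsum_mul_left]
  refine tsum_congr fun x => ?_
  have := (Lt τ c hc).latticeEquiv_symm_apply x
  simp only [LinearEquiv.coe_toEquiv, this]
  simp only [EisensteinSeries.eisSummand, Lt, zpow_neg, zpow_natCast, ← mul_inv, ← mul_pow]
  simp only [finTwoArrowEquiv_symm_apply, Matrix.cons_val_zero, Matrix.cons_val_one]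
  congr 2
  ring

lemma zeta_six : riemannZeta 6 = π ^ 6 / 945 := by
  have h := riemannZeta_two_mul_nat (k := 3) (by norm_num)
  have b : bernoulli 6 = 1 / 42 := by
    rw [bernoulli_eq_bernoulli'_of_ne_one (by norm_num)]
    have h5 : bernoulli' 5 = 0 := bernoulli'_eq_zero_of_odd (by decide) (by norm_num)
    rw [bernoulli'_def]
    norm_num [Finset.sum_range_succ, Nat.choose, h5]
  norm_num [b, Nat.factorial] at h
  rw [h]
  ring

lemma tendsto_E {k : ℕ} (hk : 3 ≤ k) (hk2 : Even k) : Tendsto (E hk) atImInfty (𝓝 1) := by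
  have ha := ModularFormClass.analyticAt_cuspFunction_zero (E hk) one_pos one_mem_strictPeriods_SL
  have h := EisensteinSeries.E_qExpansion_coeff_zero hk hk2
  simp only [qExpansion_coeff, Nat.factorial_zero, Nat.cast_one, inv_one, iteratedDeriv_zero,
    one_mul] at h
  rw [← h]
  exact (ha.continuousAt.tendsto.comp (qParam_tendsto_atImInfty one_pos)).congr
    fun τ => SlashInvariantFormClass.eq_cuspFunction _ τ one_mem_strictPeriods_SL one_ne_zero

lemma exists_zero {a b : ℂ} (h : a ≠ b) : ∃ τ : ℍ, a * E₄ τ ^ 3 = b * E₆ τ ^ 2 := by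
  by_contra hc
  let f : ModularForm 𝒮ℒ 12 := a • ModularForm.mcast (by decide) (E₄.pow 3) -
    b • ModularForm.mcast (by decide) (E₆.pow 2)
  have hf : ∀ τ, f τ = a * E₄ τ ^ 3 - b * E₆ τ ^ 2 := fun τ => rfl
  have h0 : ∀ τ, f τ ≠ 0 := fun τ e => hc ⟨τ, sub_eq_zero.1 (hf τ ▸ e)⟩
  let o : ModularForm 𝒮ℒ 0 := ModularForm.const 1
  have hs : ∀ γ : SL(2, ℤ), (⇑o / ⇑f) ∣[(0 : ℤ) - 12] γ = ⇑o / ⇑f := fun γ => by
    have hγ : (γ : GL (Fin 2) ℝ) ∈ 𝒮ℒ := ⟨γ, rfl⟩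
    simp_rw [div_slash_SL2, SL_slash, SlashInvariantForm.slash_action_eqn _ _ hγ]
  have ht : Tendsto (⇑o / ⇑f) atImInfty (𝓝 (1 / (a * 1 ^ 3 - b * 1 ^ 2))) :=
    tendsto_const_nhds.div ((((tendsto_E _ ⟨2, rfl⟩).pow 3).const_mul a).sub
      (((tendsto_E _ ⟨3, rfl⟩).pow 2).const_mul b)) (by simpa [sub_eq_zero] using h)
  let g : ModularForm 𝒮ℒ (0 - 12) :=
    { toFun := ⇑o / ⇑f
      slash_action_eq' := fun _ ⟨γ, hγ⟩ => hγ ▸ hs γ
      holo' := o.holo'.div f.holo' h0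
      bdd_at_cusps' := fun {c} hc => by
        rw [Subgroup.IsArithmetic.isCusp_iff_isCusp_SL2Z] at hc
        rw [OnePoint.isBoundedAt_iff_forall_SL2Z hc]
        intro γ _
        rw [hs γ]
        exact ht.isBigO_one ℝ }
  have := congrFun (ModularFormClass.levelOne_neg_weight_eq_zero (by norm_num) g) UpperHalfPlane.I
  exact div_ne_zero one_ne_zero (h0 _) this

lemma exists_scale {a b a' b' : ℂ} (hD : a ^ 3 - b ^ 2 ≠ 0) (hD' : a' ^ 3 - b' ^ 2 ≠ 0)
    (h : b' ^ 2 * a ^ 3 = a' ^ 3 * b ^ 2) : ∃ μ : ℂ, μ ≠ 0 ∧ a = μ ^ 4 * a' ∧ b = μ ^ 6 * b' := by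
  by_cases a0 : a = 0
  · have b0 : b ≠ 0 := fun h => hD (by simp [a0, h])
    have a0' : a' = 0 := by simpa [a0, b0] using h
    have b0' : b' ≠ 0 := fun h => hD' (by simp [a0', h])
    obtain ⟨μ, hμ⟩ := IsAlgClosed.exists_pow_nat_eq (b / b') (n := 6) (by norm_num)
    exact ⟨μ, fun h => div_ne_zero b0 b0' (by rw [← hμ, h]; ring), by simp [a0, a0'],
      by rw [hμ]; field_simp⟩
  have a0' : a' ≠ 0 := fun e => hD' (by simpa [e, a0] using h)
  by_cases b0 : b = 0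
  · have b0' : b' = 0 := by simpa [a0, b0] using h
    obtain ⟨μ, hμ⟩ := IsAlgClosed.exists_pow_nat_eq (a / a') (n := 4) (by norm_num)
    exact ⟨μ, fun h => div_ne_zero a0 a0' (by rw [← hμ, h]; ring), by rw [hμ]; field_simp,
      by simp [b0, b0']⟩
  have b0' : b' ≠ 0 := fun e => b0 (by simpa [e, a0'] using h)
  obtain ⟨μ, hμ⟩ := IsAlgClosed.exists_pow_nat_eq (b * a' / (b' * a)) (n := 2) (by norm_num)
  have e : a = μ ^ 4 * a' := by
    rw [show μ ^ 4 = (μ ^ 2) ^ 2 by ring, hμ]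
    field_simp
    linear_combination h
  refine ⟨μ, fun h => a0 (by rw [e, h]; ring), e, ?_⟩
  rw [show μ ^ 6 * b' = μ ^ 2 * (μ ^ 4 * a') * b' / a' by field_simp, ← e, hμ]
  field_simp

theorem exists_lattice {g₂ g₃ : ℂ} (h : g₂ ^ 3 - 27 * g₃ ^ 2 ≠ 0) :
    ∃ L : PeriodPair, L.g₂ = g₂ ∧ L.g₃ = g₃ := by
  have hπ : (π : ℂ) ≠ 0 := ofReal_ne_zero.2 Real.pi_ne_zero
  obtain ⟨τ, hτ⟩ := exists_zero (sub_ne_zero.1 h).symm
  have hD : E₄ τ ^ 3 - E₆ τ ^ 2 ≠ 0 := fun e => discriminant_ne_zero τ (by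
    rw [discriminant_eq_E₄_cube_sub_E₆_sq, e, zero_div])
  obtain ⟨μ, μ0, e4, e6⟩ := exists_scale (a' := 3 * g₂ / (4 * π ^ 4))
    (b' := 27 * g₃ / (8 * π ^ 6)) hD (fun e => h (by field_simp at e; linear_combination e / 1728))
    (by field_simp; linear_combination 1728 * hτ)
  refine ⟨Lt τ μ μ0, ?_, ?_⟩
  · rw [PeriodPair.g₂, G_Lt τ μ μ0 (k := 4) (by norm_num)]
    push_cast
    rw [riemannZeta_four, show E (k := 4) (by norm_num) τ = E₄ τ from rfl, e4]
    field_simp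
    ring
  · rw [PeriodPair.g₃, G_Lt τ μ μ0 (k := 6) (by norm_num)]
    push_cast
    rw [zeta_six, show E (k := 6) (by norm_num) τ = E₆ τ from rfl, e6]
    field_simp
    ring

end Pool.Agent.MP_88847a_mp.H41
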